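import Pool.Agent.Helper74_RL.Stmts

/-!
# SLO: a function which is Lipschitz in a chart
-/

noncomputable section

open scoped ContDiff Topology ENNReal RealInnerProductSpace BoundedContinuousFunction
set_option maxSynthPendingDepth 3
open Set Metric

namespace Pool.Agent.RLim.H50

open Pool.Agent.RF

theorem slo : SloStmt := by
  intro M F _ _ U ψ G f κ hκ hU hG hf hb x y L hL
  obtain ⟨c, hc, hcU, h0, h1, rfl⟩ := hL
  have hcc : Continuous c := hc.continuous
  have hdc : Continuous (deriv c) := hc.continuous_deriv le_rfl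
  -- the speed is continuous on the unit interval
  have hh : ContinuousOn (fun t => √(G (c t) (deriv c t) (deriv c t))) (Icc 0 1) := by
    have h2 : ContinuousOn (fun t => G (c t)) (Icc 0 1) :=
      hG.comp hcc.continuousOn hcU
    exact ((h2.clm_apply hdc.continuousOn).clm_apply hdc.continuousOn).sqrt
  set h : ℝ → ℝ := fun t => √(G (c t) (deriv c t) (deriv c t)) with hh_def
  have hproj : Continuous (fun t : ℝ => h (projIcc 0 1 zero_le_one t)) := by
    have h3 : Continuous (fun s : Icc (0:ℝ) 1 => h s) := continuousOn_iff_continuous_domRestrict.1 hh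
    exact h3.comp continuous_projIcc
  set H : ℝ → ℝ := fun t : ℝ => h (projIcc 0 1 zero_le_one t) with H_def
  have hHh : ∀ t ∈ Icc (0:ℝ) 1, H t = h t := by
    intro t ht
    simp only [H_def]
    rw [projIcc_of_mem zero_le_one ht]
  -- the function along the curve
  have hder : ∀ t ∈ Icc (0:ℝ) 1, HasDerivAt (fun t => f (ψ (c t)) - f (ψ (c 0)))
      (fderiv ℝ (fun q => f (ψ q)) (c t) (deriv c t)) t := by
    intro t ht
    have h4 := (hf _ (hcU t ht)).hasFDerivAt
    have h5 := (hc.differentiable one_ne_zero t).hasDerivAt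
    exact (h4.comp_hasDerivAt t h5).sub_const _
  have hI : ∀ t, HasDerivAt (fun t => κ * ∫ s in (0:ℝ)..t, H s) (κ * H t) t := by
    intro t
    exact ((hproj.integral_hasStrictDerivAt 0 t).hasDerivAt).const_mul κ
  have key := image_norm_le_of_norm_deriv_right_le_deriv_boundary
    (f := fun t => f (ψ (c t)) - f (ψ (c 0)))
    (f' := fun t => fderiv ℝ (fun q => f (ψ q)) (c t) (deriv c t)) (a := (0:ℝ)) (b := 1)
    (B := fun t => κ * ∫ s in (0:ℝ)..t, H s) (B' := fun t => κ * H t)
    (fun t ht => (hder t ht).continuousAt.continuousWithinAt)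
    (fun t ht => (hder t ⟨ht.1, ht.2.le⟩).hasDerivWithinAt)
    (by simp) hI
    (by
      intro t ht
      have ht' : t ∈ Icc (0:ℝ) 1 := ⟨ht.1, ht.2.le⟩
      rw [hHh t ht']
      exact hb _ (hcU t ht') _)
    (x := 1) (by simp)
  have e1 : ∫ s in (0:ℝ)..1, H s = ∫ s in (0:ℝ)..1, h s := by
    refine intervalIntegral.integral_congr fun t ht => ?_
    rw [uIcc_of_le zero_le_one] at ht
    exact hHh t ht
  rw [e1, h0, h1, norm_sub_rev] at key
  exact key

end Pool.Agent.RLim.H50
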