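import Pool.Agent.Helper74_RL.Stmts

/-!
# SUP: the length of a straight segment in a chart
-/

noncomputable section

open scoped ContDiff Topology ENNReal RealInnerProductSpace BoundedContinuousFunction
set_option maxSynthPendingDepth 3
open Set Metric

namespace Pool.Agent.RLim.H50

open Pool.Agent.RF

theorem sup : SupStmt := by
  intro M U ψ G q q' B hB hU hG
  have hd : ∀ t : ℝ, HasDerivAt (fun t : ℝ => q + t • (q' - q)) (q' - q) t := by
    intro t
    have h := ((hasDerivAt_id t).smul_const (q' - q)).const_add q
    simpa using h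
  have hmem : ∀ t ∈ Icc (0:ℝ) 1, q + t • (q' - q) ∈ segment ℝ q q' := by
    intro t ht
    rw [segment_eq_image']
    exact ⟨t, ht, rfl⟩
  refine ⟨_, ⟨fun t : ℝ => q + t • (q' - q), ?_, fun t ht => hU (hmem t ht), by simp, by simp, rfl⟩,
    ?_⟩
  · exact contDiff_const.add (contDiff_id.smul contDiff_const)
  · have h := intervalIntegral.norm_integral_le_of_norm_le_const (a := (0:ℝ)) (b := 1) (C := B)
      (f := fun t => √(G (q + t • (q' - q)) (deriv (fun t : ℝ => q + t • (q' - q)) t)
        (deriv (fun t : ℝ => q + t • (q' - q)) t))) (by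
        intro t ht
        rw [uIoc_of_le zero_le_one] at ht
        rw [(hd t).deriv, Real.norm_of_nonneg (Real.sqrt_nonneg _)]
        rw [← Real.sqrt_sq hB]
        exact Real.sqrt_le_sqrt (hG _ (hmem t ⟨ht.1.le, ht.2⟩)))
    have h2 := (le_abs_self _).trans ((Real.norm_eq_abs _).symm.le.trans h)
    simpa using h2

end Pool.Agent.RLim.H50
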